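import Mathlib

/-! Top-k ballots: no constant fraction of `nk/m` voters can always be matched. -/

namespace Pool.Agent.X225.Tk

open Finset

/-- The candidate ranked first. The ballot `r i` gives to each of the `m` candidates its position
in the ranking of voter `i`, the positions being numbered from `0`. -/
def top {V : Type} {m : ℕ} [NeZero m] (r : V → Equiv.Perm (Fin m)) (i : V) : Fin m :=
  (r i).symm 0

/-- The edges of the integral domination graph certified by the `k`-top lists. -/
def Edge {V : Type} {m : ℕ} [NeZero m] (k : ℕ) (r : V → Equiv.Perm (Fin m)) (a : Fin m)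
    (i j : V) : Prop :=
  top r j = a ∨ ((r i a : ℕ) < k ∧ ¬ (r i (top r j) < r i a))

/-- `M` is a perfect matching on `S` in the graph of the candidate `a`. -/
def IsMatching {V : Type} {m : ℕ} [NeZero m] (k : ℕ) (r : V → Equiv.Perm (Fin m)) (a : Fin m)
    (S : Finset V) (M : V → V) : Prop :=
  Set.BijOn M S S ∧ ∀ i ∈ S, Edge k r a i (M i)

/-- Position of candidate `c` in the ranking of a voter of type `l`. -/
def pos (K l c : ℕ) : ℕ :=
  if c ≤ l then l - c else if c < K then K + (c - l - 1)
  else if c - K < K - 1 - l then l + 1 + (c - K) else c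

lemma pos_lt {K l c : ℕ} (hl : l < K) (hc : c < 2 * K - 1) : pos K l c < 2 * K - 1 := by
  unfold pos
  split_ifs <;> omega

lemma pos_inj {K l c d : ℕ} (hl : l < K) (hc : c < 2 * K - 1) (hd : d < 2 * K - 1)
    (h : pos K l c = pos K l d) : c = d := by
  unfold pos at h
  split_ifs at h <;> omega

/-- The ranking of a voter of type `l`. -/
noncomputable def rk (K : ℕ) (l : Fin K) : Equiv.Perm (Fin (2 * K - 1)) :=
  Equiv.ofBijective (fun c => ⟨pos K l c, pos_lt l.2 c.2⟩)
    (Finite.injective_iff_bijective.1 fun c d h =>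
      Fin.ext (pos_inj l.2 c.2 d.2 (Fin.mk.inj_iff.1 h)))

lemma rk_val (K : ℕ) (l : Fin K) (c : Fin (2 * K - 1)) : (rk K l c : ℕ) = pos K l c := rfl

/-- The potential argument. -/
lemma card_le_of_potential {V : Type} (S : Finset V) (M : V → V) (hM : Set.BijOn M S S)
    (p s : V → ℤ) (h : ∀ i ∈ S, 1 ≤ s i + p i - p (M i)) : (S.card : ℤ) ≤ ∑ i ∈ S, s i := by
  have h1 : ∑ i ∈ S, p (M i) = ∑ i ∈ S, p i := by
    refine Finset.sum_bij (fun i _ => M i) (fun i hi => hM.mapsTo hi)
      (fun i hi j hj hij => hM.injOn hi hj hij) (fun j hj => ?_) (fun _ _ => rfl)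
    obtain ⟨i, hi, rfl⟩ := hM.surjOn hj
    exact ⟨i, hi, rfl⟩
  have h2 : (S.card : ℤ) = ∑ i ∈ S, (1 : ℤ) := by simp
  rw [h2]
  calc ∑ i ∈ S, (1 : ℤ) ≤ ∑ i ∈ S, (s i + p i - p (M i)) := Finset.sum_le_sum h
    _ = ∑ i ∈ S, s i := by
      rw [Finset.sum_sub_distrib, Finset.sum_add_distrib, h1]; ring

section

variable (K : ℕ)

/-- The number of voters of type `l`. -/
def tt (l : ℕ) : ℕ := (K + 1).factorial / (K - l + 1)

/-- The voters. -/
abbrev Vot : Type := Σ l : Fin K, Fin (tt K l)

/-- The profile. -/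
noncomputable def prof (v : Vot K) : Equiv.Perm (Fin (2 * K - 1)) := rk K v.1

lemma tt_mul {l : ℕ} (hl : l < K) : tt K l * (K - l + 1) = (K + 1).factorial := by
  unfold tt
  refine Nat.div_mul_cancel (Nat.dvd_factorial (by omega) (by omega))

variable {K} [NeZero (2 * K - 1)]

lemma top_val (v : Vot K) : (top (prof K) v : ℕ) = v.1 := by
  have hl := v.1.2
  have hc : (v.1 : ℕ) < 2 * K - 1 := by omega
  have h : prof K v ⟨v.1, hc⟩ = 0 := by
    apply Fin.ext
    rw [Fin.val_zero]
    show pos K v.1 v.1 = 0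
    simp [pos]
  have : top (prof K) v = ⟨v.1, hc⟩ := by
    unfold top
    rw [Equiv.symm_apply_eq, h]
  rw [this]

lemma edge_iff {a : Fin (2 * K - 1)} {v w : Vot K} (h : Edge K (prof K) a v w) :
    (w.1 : ℕ) = a ∨ (pos K v.1 a < K ∧ pos K v.1 a ≤ pos K v.1 w.1) := by
  rcases h with h | ⟨h1, h2⟩
  · left; rw [← h, top_val]
  · right
    refine ⟨h1, ?_⟩
    have h3 := not_lt.1 h2
    have h4 : (prof K v a : ℕ) ≤ prof K v (top (prof K) w) := h3
    have h5 : (prof K v (top (prof K) w) : ℕ) = pos K v.1 (top (prof K) w : ℕ) := rfl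
    rw [h5, top_val] at h4
    exact h4

lemma card_le (a : Fin (2 * K - 1)) (S : Finset (Vot K)) (M : Vot K → Vot K)
    (h : IsMatching K (prof K) a S M) : S.card ≤ (K + 1).factorial := by
  classical
  obtain ⟨hM, hE⟩ := h
  by_cases ha : (a : ℕ) < K
  · -- a useful candidate
    let p : ℕ → ℤ := fun c => if c = a then 0 else if c < a then 1 else 2 + ((K : ℤ) - 1 - c)
    let s : Vot K → ℤ := fun v => if (v.1 : ℕ) = a then (K : ℤ) - a + 1 else 0
    have key := card_le_of_potential S M hM (fun v => p v.1) s (by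
      intro v hv
      have hl := v.1.2
      have hl' := (M v).1.2
      rcases edge_iff (hE v hv) with h1 | ⟨h1, h2⟩
      · simp only [p, s, h1]
        split_ifs <;> push_cast <;> omega
      · unfold pos at h1 h2
        simp only [p, s]
        split_ifs at h1 h2 ⊢ <;> omega)
    have h2 : ∑ v ∈ S, s v ≤ ∑ v : Vot K, s v := by
      refine Finset.sum_le_sum_of_subset_of_nonneg (Finset.subset_univ S) fun v _ _ => ?_
      simp only [s]
      split_ifs <;> omega
    have h3 : ∑ v : Vot K, s v = ((K + 1).factorial : ℤ) := by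
      rw [Fintype.sum_sigma]
      rw [Finset.sum_eq_single (⟨a, ha⟩ : Fin K)]
      · simp only [s, if_true, Finset.sum_const, Finset.card_univ, Fintype.card_fin, nsmul_eq_mul]
        have := tt_mul K ha
        rw [← this]
        push_cast
        rw [Nat.cast_sub ha.le]
      · intro b _ hb
        have : (b : ℕ) ≠ a := fun h => hb (Fin.ext h)
        simp [s, this]
      · intro h; exact absurd (Finset.mem_univ _) h
    have : (S.card : ℤ) ≤ ((K + 1).factorial : ℤ) := by
      rw [← h3]; exact key.trans h2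
    exact_mod_cast this
  · -- a useless candidate
    have key := card_le_of_potential S M hM (fun v => -((v.1 : ℕ) : ℤ)) (fun _ => 0) (by
      intro v hv
      have hl := v.1.2
      have hl' := (M v).1.2
      rcases edge_iff (hE v hv) with h1 | ⟨h1, h2⟩
      · exfalso; omega
      · unfold pos at h1 h2
        split_ifs at h1 h2 <;> omega)
    simp only [Finset.sum_const_zero] at key
    omega

end

lemma card_vot (K : ℕ) : Fintype.card (Vot K) = ∑ l ∈ range K, tt K l := by
  rw [Fintype.card_sigma]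
  simp only [Fintype.card_fin]
  exact Fin.sum_univ_eq_sum_range (tt K) K

lemma exists_big (B : ℕ) : ∃ K, 0 < K ∧ 2 * B * (K + 1).factorial ≤ ∑ l ∈ range K, tt K l := by
  have h := Real.tendsto_sum_range_one_div_nat_succ_atTop
  obtain ⟨N, hN⟩ := (h.eventually_ge_atTop (2 * B + 1 : ℝ)).exists_forall_of_atTop
  have h1 := hN (N + 2) (by omega)
  refine ⟨N + 1, by omega, ?_⟩
  have h2 : ∑ l ∈ range (N + 1), tt (N + 1) l = ∑ i ∈ range (N + 1), (N + 2).factorial / (i + 2) := by
    rw [← Finset.sum_range_reflect]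
    refine Finset.sum_congr rfl fun i hi => ?_
    have hi' := Finset.mem_range.1 hi
    unfold tt
    congr 1
    omega
  rw [h2]
  have h3 : ((∑ i ∈ range (N + 1), (N + 2).factorial / (i + 2) : ℕ) : ℝ) =
      (N + 2).factorial * ∑ i ∈ range (N + 1), (1 / ((i : ℝ) + 2)) := by
    rw [Nat.cast_sum, Finset.mul_sum]
    refine Finset.sum_congr rfl fun i hi => ?_
    have hi' := Finset.mem_range.1 hi
    rw [Nat.cast_div (Nat.dvd_factorial (by omega) (by omega)) (by positivity)]
    push_cast
    ring
  have h4 : ∑ i ∈ range (N + 2), (1 / ((i : ℝ) + 1)) =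
      ∑ i ∈ range (N + 1), (1 / ((i : ℝ) + 2)) + 1 := by
    rw [Finset.sum_range_succ']
    congr 1
    · refine Finset.sum_congr rfl fun i _ => ?_
      push_cast; ring
    · simp
  have h5 : (2 * B : ℝ) ≤ ∑ i ∈ range (N + 1), (1 / ((i : ℝ) + 2)) := by
    rw [h4] at h1; linarith
  have h6 : ((2 * B * (N + 1 + 1).factorial : ℕ) : ℝ) ≤
      ((∑ i ∈ range (N + 1), (N + 2).factorial / (i + 2) : ℕ) : ℝ) := by
    rw [h3]
    push_cast
    rw [mul_comm]
    exact mul_le_mul_of_nonneg_left h5 (by positivity)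
  exact_mod_cast h6

/-- For every `B` there is a profile in which no candidate has a perfect matching on a set of at
least `nk/(Bm)` voters. -/
theorem main (B : ℕ) : ∃ (V : Type) (_ : Fintype V) (m k : ℕ) (_ : NeZero m)
    (r : V → Equiv.Perm (Fin m)), 1 ≤ k ∧ k ≤ m ∧ 0 < Fintype.card V ∧
      ∀ (a : Fin m) (S : Finset V) (M : V → V), IsMatching k r a S M →
        B * (S.card * m) < Fintype.card V * k := by
  obtain ⟨K, hK, hB⟩ := exists_big (B + 1)
  have hne : NeZero (2 * K - 1) := ⟨by omega⟩
  have hpos : 0 < (K + 1).factorial := Nat.factorial_pos _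
  have hn : 2 * (B + 1) * (K + 1).factorial ≤ Fintype.card (Vot K) := by
    rw [card_vot]; exact hB
  refine ⟨Vot K, inferInstance, 2 * K - 1, K, hne, prof K, hK, by omega, ?_, ?_⟩
  · have : 0 < 2 * (B + 1) * (K + 1).factorial := by positivity
    omega
  · intro a S M h
    have h1 := card_le a S M h
    calc B * (S.card * (2 * K - 1)) ≤ B * ((K + 1).factorial * (2 * K)) := by
          refine Nat.mul_le_mul le_rfl (Nat.mul_le_mul h1 (by omega))
      _ = (2 * B * (K + 1).factorial) * K := by ring
      _ < (2 * (B + 1) * (K + 1).factorial) * K := by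
          refine Nat.mul_lt_mul_of_pos_right ?_ hK
          nlinarith
      _ ≤ Fintype.card (Vot K) * K := Nat.mul_le_mul hn le_rfl

end Pool.Agent.X225.Tk
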